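import Mathlib
import Pool.Agent.Lib.CookLevin.Defs
import Pool.Agent.Lib.MP_8b4e11_lc.Defs
import Pool.Agent.Lib.MP_8b4e11_lc.Hard
import Pool.Agent.Lib.MP_8b4e11_lc.InNP

/-!
Recognising comparability digraphs, given by their adjacency matrices, is NP-complete.
-/

namespace Pool.Agent.Results.MP_8b4e11_lc.RecognitionNPComplete

open Pool.Agent.Lib.MP_8b4e11_lc

/-- The recognition problem for comparability digraphs is NP-complete. -/
theorem result : Pool.Agent.CookLevin.NPComplete comparabilityDigraphs := ⟨inNP, npHard⟩

end Pool.Agent.Results.MP_8b4e11_lc.RecognitionNPComplete
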